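import Pool.Agent.TH691.GM.Main2

/-!
Grid minors in apex-minor-free graphs of bounded radius: a bound that is linear in the size of the
excluded apex graph `A`, and in which the radius is only multiplied by the degree of the apex
vertex: `N(t, r) < 16 t (r + 1)`, and `n < 8 t + 16 (2 d + 1) (r + 1)` for `d = deg z`.
-/

namespace Pool.Agent.Results.MP_69d199_co.LinearBound

open TH691.GM

/-- Let `A` be an apex graph with `t` vertices: `A - z` is planar (has a straight-line plane
drawing), and let `z` have at most `d` neighbours. If `G` has radius at most `r` and does not have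
`A` as a minor, and the `n × n` grid is a minor of `G`, then `n < 16 t (r + 1)` and
`n < 8 t + 16 (2 d + 1) (r + 1)`. -/
theorem result {VA V : Type} [Fintype VA] (A : SimpleGraph VA) (z : VA)
    (hA : StraightLinePlanar (A.induce {v | v ≠ z}))
    (d : ℕ) (hd : (A.neighborSet z).ncard ≤ d)
    (G : SimpleGraph V) (r : ℕ) (hr : RadiusLE G r) (hAG : ¬ IsMinor A G)
    (n : ℕ) (hG : IsMinor (grid n) G) :
    n < min (16 * Fintype.card VA * (r + 1))
      (8 * Fintype.card VA + 16 * (2 * d + 1) * (r + 1)) := by
  classical
  obtain ⟨m, H, hm, hH, hAH⟩ := twoPage_of_plane (A.induce {v | v ≠ z}) hA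
  have hcard : Fintype.card {v : VA | v ≠ z} + 1 = Fintype.card VA := by
    have h1 : Fintype.card {v : VA | v ≠ z} = Fintype.card VA - 1 := by
      rw [← Set.toFinset_card]
      have h2 : ({v : VA | v ≠ z}).toFinset = Finset.univ.erase z := by
        ext v; simp
      rw [h2, Finset.card_erase_of_mem (Finset.mem_univ z), Finset.card_univ]
    have h3 : 0 < Fintype.card VA := Fintype.card_pos_iff.mpr ⟨z⟩
    omega
  have h4 : m ≤ 2 * Fintype.card VA := by omega
  rw [lt_min_iff]
  constructor
  · by_contra hcon
    push Not at hcon
    apply hAG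
    refine main A z m H hH hAH G r hr n (le_trans ?_ hcon) hG
    calc 8 * m * (r + 1) ≤ 8 * (2 * Fintype.card VA) * (r + 1) :=
          Nat.mul_le_mul_right _ (Nat.mul_le_mul_left _ h4)
      _ = 16 * Fintype.card VA * (r + 1) := by ring
  · by_contra hcon
    push Not at hcon
    apply hAG
    have hN : ((A.neighborSet z).toFinset).card ≤ d := by
      rwa [← Set.ncard_eq_toFinset_card']
    refine main2 A z (A.neighborSet z).toFinset (fun a ha => by simpa using ha) m H hH hAH G r hr n
      (le_trans ?_ hcon) hG
    have h5 : 16 * (2 * ((A.neighborSet z).toFinset).card + 1) * (r + 1) ≤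
        16 * (2 * d + 1) * (r + 1) := Nat.mul_le_mul_right _ (by omega)
    omega

end Pool.Agent.Results.MP_69d199_co.LinearBound
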